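import Pool.Agent.TNB.Assembly

/-!
# MP_76926f_co: two facets miss two common vertices
-/

set_option autoImplicit false

namespace Pool.Agent.Results.MP_76926f_co.CommonMisses

open Pool.Agent.TNB

/-- A polytope in `ℝ^d` as asked for in the question (not a simplex, 2-neighborly with 2-neighborly dual) has two
different facets `F`, `G` and two different vertices lying neither on `F` nor on `G`. -/
theorem result (d : ℕ) (S : Finset (EE d)) (h : IsExample d S) :
    ∃ F ∈ Facets S, ∃ G ∈ Facets S, F ≠ G ∧
      ∃ v ∈ Vertices S, ∃ w ∈ Vertices S, v ≠ w ∧ v ∉ F ∪ G ∧ w ∉ F ∪ G :=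
  main_pair main_all h

end Pool.Agent.Results.MP_76926f_co.CommonMisses
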