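import Pool.Agent.TNB.Assembly

/-!
# MP_76926f_co: at least `d + 7` vertices and at least `d + 7` facets
-/

set_option autoImplicit false

namespace Pool.Agent.Results.MP_76926f_co.DPlusSeven

open Pool.Agent.TNB

/-- A polytope in `ℝ^d` as asked for in the question (not a simplex, 2-neighborly with 2-neighborly dual) has at least
`d + 7` vertices and at least `d + 7` facets. -/
theorem result (d : ℕ) (S : Finset (EE d)) (h : IsExample d S) :
    d + 7 ≤ (Vertices S).ncard ∧ d + 7 ≤ (Facets S).ncard :=
  main_card main_all full_all h

end Pool.Agent.Results.MP_76926f_co.DPlusSeven
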