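import Pool.Agent.TNB.Assembly

/-!
# MP_76926f_co: every facet has at least `d + 3` vertices, every vertex lies on at least `d + 3` facets
-/

set_option autoImplicit false

namespace Pool.Agent.Results.MP_76926f_co.FacetSize

open Pool.Agent.TNB

/-- In a polytope in `ℝ^d` as asked for in the question (not a simplex, 2-neighborly with 2-neighborly dual) every facet
has at least `d + 3` vertices and every vertex lies on at least `d + 3` facets. -/
theorem result (d : ℕ) (S : Finset (EE d)) (h : IsExample d S) :
    (∀ F ∈ Facets S, d + 3 ≤ (Vertices S ∩ F).ncard) ∧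
    (∀ v ∈ Vertices S, d + 3 ≤ {F ∈ Facets S | v ∈ F}.ncard) :=
  main_facet main_all full_all h

end Pool.Agent.Results.MP_76926f_co.FacetSize
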